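import Mathlib
import Pool.Agent.ZygInt.Defs
import Pool.Agent.ZygInt.Slope
import Pool.Agent.ZygInt.SecondDeriv
import Pool.Agent.ZygInt.UB
import Pool.Agent.ZygInt.TestT
import Pool.Agent.ZygInt.KNec
import Pool.Agent.ZygInt.PlaneSlopes
import Pool.Agent.ZygInt.Limit
import Pool.Agent.ZygInt.Finite

/-!
# Interpolation sets for the analytic Zygmund class (MP_425ce8_an)
-/

namespace Pool.Agent.Results.MP_425ce8_an.Characterisation

open Complex Metric Set

/-- The Zygmund class of the plane. -/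
def ZygmundPlane (φ : ℂ → ℂ) : Prop :=
  Continuous φ ∧ ∃ C : ℝ, ∀ z h : ℂ, ‖φ (z + h) + φ (z - h) - 2 * φ z‖ ≤ C * ‖h‖

/-- The Zygmund class of the unit circle (a condition on the restriction of `g` to the circle). -/
def ZygmundCircle (g : ℂ → ℂ) : Prop :=
  ContinuousOn g (sphere (0 : ℂ) 1) ∧
  ∃ C : ℝ, ∀ t h : ℝ,
    ‖g (exp ((t + h : ℝ) * I)) + g (exp ((t - h : ℝ) * I)) - 2 * g (exp (t * I))‖ ≤ C * |h|

/-- The analytic Zygmund class `Λ_*`: `f` is holomorphic in the open disc, continuous on the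
closed disc (so `f` on the circle is the boundary function), and its boundary function is in the
Zygmund class of the circle. The values of `f` off the closed disc are irrelevant. -/
def AnalyticZygmund (f : ℂ → ℂ) : Prop :=
  DifferentiableOn ℂ f (ball (0 : ℂ) 1) ∧ ContinuousOn f (closedBall (0 : ℂ) 1) ∧ ZygmundCircle f

/-- `X` is an interpolation set for `Λ_*`. -/
def InterpolationSet (X : Set ℂ) : Prop :=
  ∀ φ : ℂ → ℂ, ZygmundPlane φ → ∃ f : ℂ → ℂ, AnalyticZygmund f ∧ ∀ x ∈ X, f x = φ x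

/-- Condition (K): `sup_{z ∈ I} dist(z, X) ≥ c |I|` for every arc
`I = {e^{iθ} : α ≤ θ ≤ β}` of the circle. -/
def ConditionK (X : Set ℂ) : Prop :=
  ∃ c : ℝ, 0 < c ∧ ∀ α β : ℝ, α < β → β ≤ α + 2 * Real.pi →
    ENNReal.ofReal (c * (β - α)) ≤ ⨆ θ ∈ Icc α β, infEDist (exp ((θ : ℝ) * I)) X

/-- The absolute value of the sine of the angle at `a` of the triangle `a b c`. -/
noncomputable def sinAngle (a b c : ℂ) : ℝ :=
  |((b - a) * (starRingEnd ℂ) (c - a)).im| / (‖b - a‖ * ‖c - a‖)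

/-- `1 + log⁺ (|a - c| / max(|a - b|, 1 - |a|))` -/
noncomputable def scaleGap (a b c : ℂ) : ℝ :=
  1 + max 0 (Real.log (‖a - c‖ / max ‖a - b‖ (1 - ‖a‖)))

/-- The three-point condition (T). -/
def ConditionT (X : Set ℂ) : Prop :=
  ∃ C : ℝ, ∀ a ∈ X, ∀ b ∈ X, ∀ c ∈ X, a ≠ b → a ≠ c → b ≠ c → ‖a - b‖ ≤ ‖a - c‖ →
    1 - ‖a‖ ≤ C * ‖a - c‖ ∧
    Real.log (‖a - c‖ / ‖a - b‖) ≤ C * scaleGap a b c ∧
    sinAngle a b c * Real.log (2 / ‖a - c‖) ≤ C * scaleGap a b c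

theorem interpolationSet_iff (X : Set ℂ) : InterpolationSet X ↔ ZygInt.InterpolationSet X :=
  Iff.rfl

theorem conditionK_iff (X : Set ℂ) : ConditionK X ↔ ZygInt.CondK X := by
  constructor
  · rintro ⟨c, hc, h⟩
    refine ⟨c / 2, by positivity, fun α β hαβ hβ => ?_⟩
    have h1 := h α β hαβ hβ
    have h2 : ENNReal.ofReal (c / 2 * (β - α)) < ENNReal.ofReal (c * (β - α)) := by
      have : 0 < β - α := by linarith
      rw [ENNReal.ofReal_lt_ofReal_iff (by positivity)]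
      nlinarith
    have h3 := h2.trans_le h1
    simp only [lt_iSup_iff] at h3
    obtain ⟨θ, hθ, h4⟩ := h3
    refine ⟨θ, hθ, fun x hx => ?_⟩
    have h5 : ENNReal.ofReal (c / 2 * (β - α)) < edist (exp ((θ : ℝ) * I)) x :=
      h4.trans_le (infEDist_le_edist_of_mem hx)
    rw [edist_dist, dist_eq_norm] at h5
    exact (ENNReal.ofReal_lt_ofReal_iff'.1 h5).1.le
  · rintro ⟨c, hc, h⟩
    refine ⟨c, hc, fun α β hαβ hβ => ?_⟩
    obtain ⟨θ, hθ, h1⟩ := h α β hαβ hβ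
    refine le_trans ?_ (le_iSup₂ (f := fun (θ : ℝ) (_ : θ ∈ Icc α β) =>
      infEDist (exp ((θ : ℝ) * I)) X) θ hθ)
    rw [le_infEDist]
    intro x hx
    rw [edist_dist, dist_eq_norm]
    exact ENNReal.ofReal_le_ofReal (h1 x hx)

theorem conditionT_iff {X : Set ℂ} (hX : X ⊆ closedBall 0 1) :
    ConditionT X ↔ ZygInt.CondT1 X ∧ ZygInt.CondT2 X := by
  constructor
  · rintro ⟨C, h⟩
    refine ⟨⟨C, fun a ha b hb c hc h1 h2 h3 h4 => (h a ha b hb c hc h1 h2 h3 h4).1⟩,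
      ⟨2 * C, fun a ha b hb c hc h1 h2 h3 h4 => ?_⟩⟩
    obtain ⟨-, g1, g2⟩ := h a ha b hb c hc h1 h2 h3 h4
    have e1 : ZygInt.sn a b c = sinAngle a b c := rfl
    have e2 : scaleGap a b c
      = 1 + max 0 (Real.log (‖a - c‖ / max ‖a - b‖ (1 - ‖a‖))) := rfl
    rw [e1, ← e2]
    linarith
  · rintro ⟨⟨C₁, h1⟩, ⟨C₂, h2⟩⟩
    refine ⟨max C₁ C₂, fun a ha b hb c hc g1 g2 g3 g4 => ?_⟩
    have ha1 : ‖a‖ ≤ 1 := by simpa using hX ha
    have hc1 : ‖c‖ ≤ 1 := by simpa using hX hc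
    have hab : 0 < ‖a - b‖ := norm_pos_iff.2 (sub_ne_zero.2 g1)
    have hac : 0 < ‖a - c‖ := norm_pos_iff.2 (sub_ne_zero.2 g2)
    have hac2 : ‖a - c‖ ≤ 2 := (norm_sub_le _ _).trans (by linarith)
    have k1 := h1 a ha b hb c hc g1 g2 g3 g4
    have k2 := h2 a ha b hb c hc g1 g2 g3 g4
    have e1 : ZygInt.sn a b c = sinAngle a b c := rfl
    have e2 : scaleGap a b c
      = 1 + max 0 (Real.log (‖a - c‖ / max ‖a - b‖ (1 - ‖a‖))) := rfl
    rw [e1, ← e2] at k2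
    have hs : 0 ≤ scaleGap a b c := by
      rw [e2]; have := le_max_left 0 (Real.log (‖a - c‖ / max ‖a - b‖ (1 - ‖a‖))); linarith
    have p1 : 0 ≤ Real.log (‖a - c‖ / ‖a - b‖) := Real.log_nonneg (by rwa [one_le_div hab])
    have p2 : 0 ≤ sinAngle a b c * Real.log (2 / ‖a - c‖) := by
      refine mul_nonneg (by unfold sinAngle; positivity) (Real.log_nonneg ?_)
      rwa [one_le_div hac]
    have p3 : C₂ * scaleGap a b c ≤ max C₁ C₂ * scaleGap a b c := by
      gcongr; exact le_max_right _ _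
    have p4 : C₁ * ‖a - c‖ ≤ max C₁ C₂ * ‖a - c‖ := by
      gcongr; exact le_max_left _ _
    exact ⟨k1.trans p4, by linarith, by linarith⟩

/-- functions of `Λ_*` are in the quantitative class -/
theorem zclass_of_interp {X : Set ℂ} (h : ZygInt.InterpolationSet X) (φ : ℂ → ℂ)
    (hφ : ZygInt.ZygmundPlane φ) :
    ∃ (M : ℝ) (f D : ℂ → ℂ), ZygInt.ZClass M f D ∧ ∀ x ∈ X, f x = φ x := by
  obtain ⟨f, ⟨hf, hc, -, C, hC⟩, hfX⟩ := h φ hφ
  obtain ⟨M, hM⟩ := ZygInt.J3.second_deriv_of_boundary_zygmund hf hc hC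
  refine ⟨max M 0, f, deriv f, ZygInt.taylor_of_second_deriv (le_max_right _ _) hf hc
    (fun z hz => (hM z hz).trans ?_), hfX⟩
  have : ‖z‖ < 1 := by simpa using hz
  have : 0 < 1 - ‖z‖ := by linarith
  gcongr
  exact le_max_left _ _

/-- A closed subset `X` of the closed unit disc is an interpolation set for the analytic Zygmund
class if and only if it satisfies (K) and the three-point condition (T). In particular a closed
subset of the circle is an interpolation set if and only if it satisfies (K). -/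
theorem result (X : Set ℂ) (hXc : IsClosed X) (hX : X ⊆ closedBall (0 : ℂ) 1) :
    (InterpolationSet X ↔ ConditionK X ∧ ConditionT X) ∧
    (X ⊆ sphere (0 : ℂ) 1 → (InterpolationSet X ↔ ConditionK X)) := by
  have hF : ∃ C₂ : ℝ, 0 ≤ C₂ ∧ ∀ (M : ℝ) (f D : ℂ → ℂ), 0 ≤ M → ZygInt.ZClass M f D →
      ∀ a ∈ closedBall (0 : ℂ) 1, ∀ b ∈ closedBall (0 : ℂ) 1, ∀ c ∈ closedBall (0 : ℂ) 1,
        a ≠ b → a ≠ c → ‖a - b‖ ≤ ‖a - c‖ →
        ‖ZygInt.sl f a b - ZygInt.sl f a c‖ ≤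
          C₂ * M * (1 + max 0 (Real.log (‖a - c‖ / max ‖a - b‖ (1 - ‖a‖)))) :=
    ⟨61, by norm_num, fun M f D hM hZ a ha b hb c hc h1 h2 h3 =>
      hZ.slope_bound hM ha hb hc h1 h2 h3⟩
  have main : InterpolationSet X ↔ ConditionK X ∧ ConditionT X := by
    rw [interpolationSet_iff, conditionK_iff, conditionT_iff hX]
    constructor
    · intro hint
      have hU := fun φ C₀ => ZygInt.J5.uniform_interp hX (zclass_of_interp hint) φ C₀
      refine ⟨ZygInt.J8.condK_of_uniform hX hU ?_ hF, ZygInt.J7.condT_of_uniform hX hU hF⟩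
      exact fun M f D hZ => ⟨hZ.differentiableOn, hZ.continuousOn⟩
    · rintro ⟨hK, hT1, hT2⟩ φ hφ
      obtain ⟨M, f, D, hZ, hfX⟩ := ZygInt.J17.sufficiency hXc hX hK hT1 hT2 hφ
        ZygInt.finite_interp ZygInt.J5.zclass_limit
        (fun hZ h0 h1 _ _ ha hb => hZ.modulus h0 h1 ha hb) (ZygInt.J9s.zygmund_slopes hφ)
      exact ⟨f, hZ.analyticZygmund, hfX⟩
  refine ⟨main, fun hS => ?_⟩
  rw [main]
  constructor
  · exact fun h => h.1
  · exact fun h => ⟨h, (conditionT_iff hX).2 (ZygInt.J17.condT_of_subset_sphere hS)⟩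

end Pool.Agent.Results.MP_425ce8_an.Characterisation
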